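import Pool.Agent.P8H61.FQ.Pcdn0
import Pool.Agent.P8H47.FP.Stm6

/-!
# Project FQ, package PCDN (the statement of `Stm6`)
-/

set_option autoImplicit false

namespace Pool.Agent.P8H61.FQ

/-- Package PCDN. -/
theorem pcdn : Pool.Agent.P8H47.FP.S_PCDN := by
  intro F _ M H hsq hidx hneg hH hR hz hxy
  exact pcdn_core M H hsq hidx hneg hH hR hz hxy

end Pool.Agent.P8H61.FQ
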