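import Pool.Agent.P8H47.FP.Stm6

/-!
# Project FQ, package SOLV

Simultaneous solutions for finitely many places from solutions at the single places (adaptation of
`P8H55/FP/C1o.lean`).
-/

set_option autoImplicit false

namespace Pool.Agent.P8H61.FQ

open Pool.Agent.Y920.EP (pwG)
open Pool.Agent.P8H47.EC
open Pool.Agent.P8H47.EC2
open Pool.Agent.P8H47.FP
open Pool.Agent.P8H55.FP

variable {F : Type} [Field F]

theorem near_of_div {q : Place F} {n : F} {M : ℕ} {a c : Fˣ}
    (h : Near M q n 1 ((c * a⁻¹ : Fˣ) : F)) : Near M q n a c := by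
  rcases q with O | e
  · obtain ⟨b, hb, hc⟩ := h
    refine ⟨b, hb, ?_⟩
    rw [one_mul, Units.val_mul, Units.val_inv_eq_inv_val] at hc
    rw [← hc]
    have := a.ne_zero
    field_simp
  · have h' : |e.f ((c * a⁻¹ : Fˣ) : F) - e.f 1| * (M : e.R) ≤ |e.f 1| := h
    change |e.f (c : F) - e.f (a : F)| * (M : e.R) ≤ |e.f (a : F)|
    have ha : e.f (a : F) ≠ 0 := by rw [Ne, map_eq_zero]; exact a.ne_zero
    have ha' : 0 < |e.f (a : F)| := abs_pos.2 ha
    have e1 : e.f ((c * a⁻¹ : Fˣ) : F) - 1 = (e.f (c : F) - e.f (a : F)) / e.f (a : F) := by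
      rw [Units.val_mul, Units.val_inv_eq_inv_val, map_mul, map_inv₀]
      field_simp
    rw [map_one, abs_one, e1, abs_div, div_mul_eq_mul_div, div_le_one ha'] at h'
    exact h'

/-- Package SOLV. -/
theorem solv : S_SOLV := by
  intro clo F _ ι κ _ _ T O J e S y hy g a ha hone' N
  classical
  have hyq : ∀ q : ι ⊕ κ, ∀ O', qq O e q = .inl O' → (y : F) ∈ O' ∧ (y : F)⁻¹ ∉ O' := by
    intro q O' h
    rcases q with i | j
    · have h1 : O i = O' := Sum.inl.inj h
      rw [← h1]
      exact ⟨(hy i).1, (hy i).2.1⟩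
    · exact absurd h (by simp [qq])
  -- the tolerances are in the groups `UU`
  have hU : ∀ q r : ι ⊕ κ, q ≠ r → (nn y q : Fˣ) ∈ UU (Rg (qq O e q)) (Rg (qq O e r)) := by
    intro q r hqr
    rcases q with i | j
    · have h1 : y ∈ UU (Rg (qq O e (Sum.inl i : ι ⊕ κ))) (Rg (qq O e r)) := by
        rcases r with i' | j
        · exact sep (S.dat i) (S.dat i').pw (S.dat i').one_add
            (S.ne i i' fun h => hqr (by rw [h])) (hy i).1 (hy i).2.1 (hy i).2.2
        · exact sep (S.dat i) (pw_pos (e j)) (one_add_pos (e j)) (S.neO i j) (hy i).1 (hy i).2.1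
            (hy i).2.2
      exact mul_mem h1 h1
    · exact one_mem _
  have hP : ∀ q r : ι ⊕ κ, q ≠ r → PSep (qq O e q) (qq O e r) := by
    intro q r hqr
    rcases q with i | j <;> rcases r with i' | j'
    · trivial
    · trivial
    · trivial
    · exact S.sep j j' fun h => hqr (by rw [h])
  -- one place
  have hone : ∀ (r : ι ⊕ κ) (M : ℕ), ∃ c : Fˣ,
      Near M (qq O e r) ((y * y : Fˣ) : F) 1 ((g * c ^ 2 * (a r)⁻¹ : Fˣ) : F) := by
    intro r M
    obtain ⟨c, hc⟩ := hone' r M
    exact ⟨c, near_div hc⟩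
  have main : ∀ s : Finset (ι ⊕ κ), ∀ N : ℕ, ∃ c : Fˣ, ∀ q ∈ s,
      Near N (qq O e q) ((y * y : Fˣ) : F) 1 ((g * c ^ 2 * (a q)⁻¹ : Fˣ) : F) := by
    intro s
    induction s using Finset.induction_on with
    | empty => exact fun N => ⟨1, fun q hq => absurd hq (Finset.notMem_empty q)⟩
    | insert r s hr ih =>
      intro N
      have hM : 2 ≤ 7 * N + 7 := by omega
      obtain ⟨c₀, hc₀⟩ := ih (7 * N + 7)
      obtain ⟨cr, hcr⟩ := hone r (7 * N + 7)
      have hqr : ∀ q ∈ s, q ≠ r := fun q hq h => hr (h ▸ hq)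
      have hur := near_unit (qq O e r) y (hyq r) hM hcr
      have hUa : ∀ q ∈ s, cr * c₀⁻¹ ∈ UU (Rg (qq O e q)) (Rg (qq O e r)) := by
        intro q hq
        apply UU_pow (p := 2) two_ne_zero
        have huq := near_unit (qq O e q) y (hyq q) hM (hc₀ q hq)
        have e3 : (cr * c₀⁻¹) ^ 2 = ((g * cr ^ 2 * (a r)⁻¹) * a r) *
            ((g * c₀ ^ 2 * (a q)⁻¹) * a q)⁻¹ := by
          rw [inv_mul_cancel_right, inv_mul_cancel_right, mul_pow, inv_pow, mul_inv]
          rw [mul_mul_mul_comm, mul_inv_cancel, one_mul]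
        rw [e3]
        refine mul_mem (mul_mem (UU_right hur.1 hur.2) ?_) (inv_mem (mul_mem
          (UU_left huq.1 huq.2) ?_))
        · exact UU_comm (ha r q (hqr q hq).symm)
        · exact ha q r (hqr q hq)
      obtain ⟨c, hc1, hc2⟩ := clo F (ι ⊕ κ) (qq O e) s r hr (fun q hq => hP q r (hqr q hq))
        (7 * N + 7) (nn y) (cr * c₀⁻¹) (by
          intro q _
          rcases q with i | j
          · refine ⟨?_, fun h2 => (hy i).2.1 ?_⟩
            · change ((y * y : Fˣ) : F) ∈ O i
              rw [Units.val_mul]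
              exact (O i).mul_mem _ _ (hy i).1 (hy i).1
            · have h2' : ((y * y : Fˣ) : F)⁻¹ ∈ O i := h2
              rw [Units.val_mul] at h2'
              have h3 : (y : F)⁻¹ = y * ((y : F) * y)⁻¹ := by
                have := y.ne_zero
                field_simp
              rw [h3]
              exact (O i).mul_mem _ _ (hy i).1 h2'
          · trivial)
        (fun q hq => ⟨hU q r (hqr q hq), UU_comm (hU r q (hqr q hq).symm), hUa q hq⟩)
      -- at orderings the tolerance does not matter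
      have hnn : ∀ (q : ι ⊕ κ) (a c : F), Near (7 * N + 7) (qq O e q) ((nn y q : Fˣ) : F) a c →
          Near (7 * N + 7) (qq O e q) ((y * y : Fˣ) : F) a c := by
        intro q a c h
        rcases q with i | j
        · exact h
        · exact h
      refine ⟨c₀ * c, fun q hq => ?_⟩
      rcases Finset.mem_insert.1 hq with rfl | hq'
      · have h1 : Near (7 * N + 7) (qq O e q) ((y * y : Fˣ) : F) 1 ((c * (cr * c₀⁻¹)⁻¹ : Fˣ) : F) :=
          near_div (hnn q _ _ hc2)
        have h2 := near_mul (qq O e q) y (hyq q) hcr h1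
        have e4 : g * cr ^ 2 * (a q)⁻¹ * (c * (cr * c₀⁻¹)⁻¹) ^ 2 =
            g * (c₀ * c) ^ 2 * (a q)⁻¹ := by
          apply Units.ext
          simp only [Units.val_mul, Units.val_pow_eq_pow_val, Units.val_inv_eq_inv_val]
          have := cr.ne_zero
          have := c₀.ne_zero
          have := (a q).ne_zero
          field_simp
        rw [e4] at h2
        exact h2
      · have h2 := near_mul (qq O e q) y (hyq q) (hc₀ q hq') (hnn q _ _ (hc1 q hq'))
        have e4 : g * c₀ ^ 2 * (a q)⁻¹ * c ^ 2 = g * (c₀ * c) ^ 2 * (a q)⁻¹ := by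
          rw [mul_pow, mul_right_comm, mul_assoc g]
        rw [e4] at h2
        exact h2
  obtain ⟨c, hc⟩ := main Finset.univ N
  exact ⟨c, fun q => near_of_div (hc q (Finset.mem_univ q))⟩

end Pool.Agent.P8H61.FQ
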