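import Pool.Agent.Y920.ETC.Stm

/-!
# Project FQ, package PCDN

A rigid pair `M`, `H = M ∪ -M` of index four without exceptions.
-/

set_option autoImplicit false

namespace Pool.Agent.P8H61.FQ

variable {F : Type} [Field F]

/-- `a` is an element of `M` -/
def In (M : Subgroup Fˣ) (a : F) : Prop := ∃ t ∈ M, (t : F) = a

/-- `a` or `-a` is an element of `M` -/
def InH (M : Subgroup Fˣ) (a : F) : Prop := In M a ∨ In M (-a)

theorem In.ne {M : Subgroup Fˣ} {a : F} (h : In M a) : a ≠ 0 := by
  obtain ⟨t, -, rfl⟩ := h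
  exact t.ne_zero

theorem In.mul {M : Subgroup Fˣ} {a b : F} (h : In M a) (h' : In M b) : In M (a * b) := by
  obtain ⟨t, ht, rfl⟩ := h
  obtain ⟨s, hs, rfl⟩ := h'
  exact ⟨t * s, M.mul_mem ht hs, by simp⟩

theorem In.inv {M : Subgroup Fˣ} {a : F} (h : In M a) : In M a⁻¹ := by
  obtain ⟨t, ht, rfl⟩ := h
  exact ⟨t⁻¹, M.inv_mem ht, by simp⟩

theorem In.div {M : Subgroup Fˣ} {a b : F} (h : In M a) (h' : In M b) : In M (a / b) := by
  rw [div_eq_mul_inv]
  exact h.mul h'.inv

theorem in_unit {M : Subgroup Fˣ} {x : Fˣ} : In M (x : F) ↔ x ∈ M := by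
  constructor
  · rintro ⟨t, ht, h⟩
    rwa [← Units.ext h]
  · intro h
    exact ⟨x, h, rfl⟩

theorem inH_unit {M : Subgroup Fˣ} {x : Fˣ} : InH M (x : F) ↔ (x ∈ M ∨ -x ∈ M) := by
  unfold InH
  rw [in_unit, ← Units.val_neg, in_unit]

/-- the situation -/
structure Ctx (M : Subgroup Fˣ) : Prop where
  sq : ∀ a : F, a ≠ 0 → In M (a * a)
  neg : ¬ In M (-1 : F)
  idx : ∀ a b : F, a ≠ 0 → b ≠ 0 → ¬ InH M a → ¬ InH M b → InH M (a * b)
  rig : ∀ a : F, a ≠ 0 → ¬ InH M a → In M (1 + a) ∨ In M (a * (1 + a))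
  zz : ∀ a : F, In M a → 1 + a ≠ 0 → InH M (1 + a)
  xy : ∃ x y : F, In M x ∧ In M y ∧ 1 + x + y = 0

/-- small elements -/
def Sma (M : Subgroup Fˣ) (a : F) : Prop := a ≠ 0 ∧ ¬ InH M a ∧ In M (1 + a)

section

variable {M : Subgroup Fˣ}

theorem Ctx.one (h : Ctx M) : In M (1 : F) := by
  have := h.sq 1 one_ne_zero
  rwa [one_mul] at this

theorem Ctx.not_both (h : Ctx M) {a : F} (h1 : In M a) (h2 : In M (-a)) : False := by
  apply h.neg
  have h3 := h2.div h1
  rwa [neg_div, div_self h1.ne] at h3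

theorem inH_neg {a : F} : InH M (-a) ↔ InH M a := by
  unfold InH
  rw [neg_neg]
  exact Or.comm

theorem inH_mul_in {a u : F} (hu : In M u) (ha : InH M (a * u)) : InH M a := by
  rcases ha with h | h
  · left
    have := h.div hu
    rwa [mul_div_cancel_right₀ _ hu.ne] at this
  · right
    have := h.div hu
    rwa [← neg_mul, mul_div_cancel_right₀ _ hu.ne] at this

theorem not_inH_mul {a u : F} (hu : In M u) (ha : ¬ InH M a) : ¬ InH M (a * u) :=
  fun h => ha (inH_mul_in hu h)

theorem not_inH_div {a u : F} (hu : In M u) (ha : ¬ InH M a) : ¬ InH M (a / u) := by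
  rw [div_eq_mul_inv]
  exact not_inH_mul hu.inv ha

theorem inH_mul {a b : F} (ha : InH M a) (hb : InH M b) : InH M (a * b) := by
  rcases ha with h | h <;> rcases hb with h' | h'
  · exact Or.inl (h.mul h')
  · right
    have := h.mul h'
    rwa [mul_neg] at this
  · right
    have := h.mul h'
    rwa [neg_mul] at this
  · left
    have := h.mul h'
    rwa [neg_mul_neg] at this

theorem inH_inv {a : F} (ha : InH M a) : InH M a⁻¹ := by
  rcases ha with h | h
  · exact Or.inl h.inv
  · right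
    have := h.inv
    rwa [inv_neg] at this

theorem inH_of_mul {a b : F} (hb : b ≠ 0) (h1 : InH M b) (h2 : InH M (a * b)) : InH M a := by
  have := inH_mul h2 (inH_inv h1)
  rwa [mul_assoc, mul_inv_cancel₀ hb, mul_one] at this

/-- rigidity relative to an element of `M` -/
theorem Ctx.rigU (h : Ctx M) {u a : F} (hu : In M u) (ha0 : a ≠ 0) (ha : ¬ InH M a) :
    In M (u + a) ∨ In M (a * (u + a)) := by
  have hu0 := hu.ne
  rcases h.rig (a / u) (div_ne_zero ha0 hu0) (not_inH_div hu ha) with h1 | h1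
  · left
    have := h1.mul hu
    rwa [add_mul, one_mul, div_mul_cancel₀ _ hu0] at this
  · right
    have := h1.mul (h.sq u hu0)
    have e : a / u * (1 + a / u) * (u * u) = a * (u + a) := by
      field_simp
    rwa [e] at this

theorem Ctx.Z (h : Ctx M) {u v r : F} (hu : In M u) (hv : In M v) (hs : u + v + r = 0)
    (hr : r ≠ 0) : InH M r := by
  have hu0 := hu.ne
  have h1 : 1 + v / u = -(r / u) := by
    field_simp
    linear_combination hs
  have h2 : 1 + v / u ≠ 0 := by
    rw [h1]
    exact neg_ne_zero.2 (div_ne_zero hr hu0)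
  have h3 := h.zz (v / u) (hv.div hu) h2
  rw [h1, inH_neg, div_eq_mul_inv] at h3
  exact inH_mul_in hu.inv h3

/-- the combination of (Z) with rigidity -/
theorem Ctx.ZM (h : Ctx M) {u v m a : F} (hu : In M u) (hv : In M v) (hm : In M m)
    (ha0 : a ≠ 0) (ha : ¬ InH M a) (hs : u + v + (m + a) = 0) : In M (m + a) := by
  have hr : m + a ≠ 0 := by
    intro h0
    have : a = -m := by linear_combination h0
    apply ha
    rw [this]
    right
    rwa [neg_neg]
  have h1 := h.Z hu hv hs hr
  rcases h.rigU hm ha0 ha with h2 | h2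
  · exact h2
  · exfalso
    apply ha
    exact inH_of_mul hr h1 (Or.inl h2)

theorem Ctx.S1 (h : Ctx M) {a : F} (ha : Sma M a) : Sma M (-a) := by
  obtain ⟨ha0, haH, ha1⟩ := ha
  obtain ⟨x, y, hx, hy, hxy⟩ := h.xy
  have hna0 : -a ≠ 0 := neg_ne_zero.2 ha0
  have hnaH : ¬ InH M (-a) := fun hh => haH (inH_neg.1 hh)
  have h1 : In M (x + -a) := h.ZM ha1 hy hx hna0 hnaH (by linear_combination hxy)
  have h3 : In M (y + -a) := h.ZM ha1 hx hy hna0 hnaH (by linear_combination hxy)
  have h4 : In M (x + a) := h.ZM h.one h3 hx ha0 haH (by linear_combination hxy)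
  refine ⟨hna0, hnaH, ?_⟩
  exact h.ZM h4 hy h.one hna0 hnaH (by linear_combination hxy)

theorem Ctx.S3 (h : Ctx M) {a x : F} (ha : Sma M a) (hx : Sma M x) :
    Sma M (a / (1 + x)) := by
  -- the case `a ∈ - x M`
  have key : ∀ a : F, Sma M a → In M (-(a * x)) → Sma M (a / (1 + x)) := by
    intro a ha hax
    obtain ⟨ha0, haH, ha1⟩ := ha
    obtain ⟨hx0, hxH, hx1⟩ := hx
    have hu0 := hx1.ne
    refine ⟨div_ne_zero ha0 hu0, not_inH_div hx1 haH, ?_⟩
    have hmain : In M ((1 + x) + a) := by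
      rcases h.rigU hx1 ha0 haH with h1 | h1
      · exact h1
      · have h2 := h.rigU ha1 hx0 hxH
        have e : (1 + a) + x = (1 + x) + a := by ring
        rw [e] at h2
        rcases h2 with h2 | h2
        · exact h2
        · exfalso
          have h3 := (h1.mul h2).div (h.sq ((1 + x) + a) (by
            intro h0
            rw [h0, mul_zero] at h1
            exact h1.ne rfl))
          have hne : (1 + x) + a ≠ 0 := by
            intro h0
            rw [h0, mul_zero] at h1
            exact h1.ne rfl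
          have e2 : a * ((1 + x) + a) * (x * ((1 + x) + a)) / (((1 + x) + a) * ((1 + x) + a)) =
              a * x := by
            field_simp
          rw [e2] at h3
          exact h.not_both h3 hax
    have := hmain.div hx1
    rwa [add_div, div_self hu0] at this
  rcases h.idx a x ha.1 hx.1 ha.2.1 hx.2.1 with h1 | h1
  · have h2 := key (-a) (h.S1 ha) (by rwa [neg_mul, neg_neg])
    have h3 := h.S1 h2
    rwa [neg_div, neg_neg] at h3
  · exact key a ha h1

theorem Ctx.C (h : Ctx M) {a x : F} (ha : Sma M a) (hx : Sma M x) :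
    Sma M (a * (1 + x)) := by
  have hu0 := hx.2.2.ne
  have h1 : Sma M (-(x / (1 + x))) := h.S1 (h.S3 hx hx)
  have h2 := h.S3 ha h1
  have e : a / (1 + -(x / (1 + x))) = a * (1 + x) := by
    have e1 : 1 + -(x / (1 + x)) = (1 + x)⁻¹ := by
      field_simp
      ring
    rw [e1, div_inv_eq_mul]
  rwa [e] at h2

theorem Ctx.D (h : Ctx M) {x a b : F} (hx : Sma M x) (ha : Sma M a) (hb : Sma M b) :
    1 + x ≠ a * b := by
  intro heq
  have h1 := h.S3 ha hx
  rw [heq] at h1
  have hb0 := hb.1
  have e : a / (a * b) = b⁻¹ := by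
    have := ha.1
    field_simp
  rw [e] at h1
  have h2 := hb.2.2.div h1.2.2
  have h3 : 1 + b⁻¹ ≠ 0 := h1.2.2.ne
  have h4 : (1 + b) / (1 + b⁻¹) = b := by
    have : b + 1 ≠ 0 := by
      have := hb.2.2.ne
      rwa [add_comm] at this
    field_simp
    ring
  rw [h4] at h2
  exact hb.2.1 (Or.inl h2)

theorem aux1 {c : F} (hc : c ≠ 0) : c * (1 + c) / (c * c) = 1 + c⁻¹ := by
  field_simp
  ring

theorem aux2 {c : F} (hc : c ≠ 0) : (1 + -c⁻¹) * (c * c) = -c * (1 - c) := by
  have h1 : c⁻¹ * c = 1 := inv_mul_cancel₀ hc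
  linear_combination (-c) * h1

theorem Ctx.P (h : Ctx M) {x y z : F} (hx : Sma M x) (hy : Sma M y) (hz : Sma M z) :
    Sma M (x * y * z) := by
  -- the case `x y ∈ M`
  have key : ∀ x : F, Sma M x → In M (x * y) → Sma M (x * y * z) := by
    intro x hx ha
    by_contra hcon
    have ha0 := ha.ne
    have hc0 : x * y * z ≠ 0 := mul_ne_zero ha0 hz.1
    have hcH : ¬ InH M (x * y * z) := by
      rw [mul_comm]
      exact not_inH_mul ha hz.2.1
    have hc1 : ¬ In M (1 + x * y * z) := fun h1 => hcon ⟨hc0, hcH, h1⟩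
    have hc2 : In M (x * y * z * (1 + x * y * z)) := by
      rcases h.rig _ hc0 hcH with h1 | h1
      · exact absurd h1 hc1
      · exact h1
    have hci0 : (x * y * z)⁻¹ ≠ 0 := inv_ne_zero hc0
    have hcS : Sma M (x * y * z)⁻¹ := by
      refine ⟨hci0, ?_, ?_⟩
      · intro h1
        apply hcH
        have := inH_inv h1
        rwa [inv_inv] at this
      · have h1 := hc2.div (h.sq _ hc0)
        have e : x * y * z * (1 + x * y * z) / (x * y * z * (x * y * z)) =
            1 + (x * y * z)⁻¹ := aux1 hc0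
        rwa [e] at h1
    have hcS' := h.S1 hcS
    have hc3 : In M (-(x * y * z) * (1 - x * y * z)) := by
      have h1 := hcS'.2.2.mul (h.sq _ hc0)
      have e : (1 + -(x * y * z)⁻¹) * (x * y * z * (x * y * z)) =
          -(x * y * z) * (1 - x * y * z) := aux2 hc0
      rwa [e] at h1
    have hxS := h.S1 hx
    have hyS := h.S1 hy
    have hzS := h.S1 hz
    have hane : x * y ≠ 1 := by
      intro h1
      apply hcon
      rw [h1, one_mul]
      exact hz
    have hsub : 1 - x * y ≠ 0 := sub_ne_zero.2 (Ne.symm hane)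
    -- `1 - a ∈ M ∪ - b M` and `1 - a ∈ M ∪ b M`
    have k1 : In M (1 - x * y) ∨ In M (-y * (1 - x * y)) := by
      have h1 : In M (1 + y) := hy.2.2
      have h2 : -(y * (1 + x)) ≠ 0 := neg_ne_zero.2 (mul_ne_zero hy.1 hx.2.2.ne)
      have h3 : ¬ InH M (-(y * (1 + x))) := fun h4 =>
        not_inH_mul hx.2.2 hy.2.1 (inH_neg.1 h4)
      rcases h.rigU h1 h2 h3 with h4 | h4
      · left
        have e : 1 + y + -(y * (1 + x)) = 1 - x * y := by ring
        rwa [e] at h4
      · right
        have h5 := h4.div hx.2.2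
        have hu0 := hx.2.2.ne
        have e : -(y * (1 + x)) * (1 + y + -(y * (1 + x))) / (1 + x) = -y * (1 - x * y) := by
          field_simp
          ring
        rwa [e] at h5
    have k2 : In M (1 - x * y) ∨ In M (y * (1 - x * y)) := by
      have h1 : In M (1 + -y) := hyS.2.2
      have hu0 := hxS.2.2.ne
      have h2 : y * (1 + -x) ≠ 0 := mul_ne_zero hy.1 hu0
      have h3 : ¬ InH M (y * (1 + -x)) := not_inH_mul hxS.2.2 hy.2.1
      rcases h.rigU h1 h2 h3 with h4 | h4
      · left
        have e : 1 + -y + y * (1 + -x) = 1 - x * y := by ring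
        rwa [e] at h4
      · right
        have h5 := h4.div hxS.2.2
        have e : y * (1 + -x) * (1 + -y + y * (1 + -x)) / (1 + -x) = y * (1 - x * y) := by
          field_simp
          ring
        rwa [e] at h5
    have k3 : In M (1 - x * y) := by
      rcases k1 with h1 | h1
      · exact h1
      · rcases k2 with h2 | h2
        · exact h2
        · exact absurd h1 (fun h1 => h.not_both h2 (by rwa [neg_mul] at h1))
    -- `1 - a ∈ c M ∪ - M` and `1 - a ∈ - c M ∪ - M`
    have k4 : In M (-(1 - x * y)) ∨ In M (x * y * z * (1 - x * y)) := by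
      have h1 : In M (x * y * (1 + z)) := ha.mul hz.2.2
      have hw0 : 1 + x * y * z ≠ 0 := by
        intro h0
        rw [h0, mul_zero] at hc2
        exact hc2.ne rfl
      have h2 : -(1 + x * y * z) ≠ 0 := neg_ne_zero.2 hw0
      have h3 : ¬ InH M (-(1 + x * y * z)) := by
        intro h4
        apply hcH
        exact inH_of_mul hw0 (inH_neg.1 h4) (Or.inl hc2)
      rcases h.rigU h1 h2 h3 with h4 | h4
      · left
        have e : x * y * (1 + z) + -(1 + x * y * z) = -(1 - x * y) := by ring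
        rwa [e] at h4
      · right
        have h5 := (h4.mul hc2).div (h.sq _ hw0)
        have e : -(1 + x * y * z) * (x * y * (1 + z) + -(1 + x * y * z)) *
            (x * y * z * (1 + x * y * z)) / ((1 + x * y * z) * (1 + x * y * z)) =
            x * y * z * (1 - x * y) := by
          field_simp
          ring
        rwa [e] at h5
    have k5 : In M (-(1 - x * y)) ∨ In M (-(x * y * z) * (1 - x * y)) := by
      have h1 : In M (x * y * (1 + -z)) := ha.mul hzS.2.2
      have hw0 : 1 - x * y * z ≠ 0 := by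
        intro h0
        rw [h0, mul_zero] at hc3
        exact hc3.ne rfl
      have h2 : -(1 - x * y * z) ≠ 0 := neg_ne_zero.2 hw0
      have h3 : ¬ InH M (-(1 - x * y * z)) := by
        intro h4
        apply hcH
        rw [← inH_neg]
        exact inH_of_mul hw0 (inH_neg.1 h4) (Or.inl hc3)
      rcases h.rigU h1 h2 h3 with h4 | h4
      · left
        have e : x * y * (1 + -z) + -(1 - x * y * z) = -(1 - x * y) := by ring
        rwa [e] at h4
      · right
        have h5 := (h4.mul hc3).div (h.sq _ hw0)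
        have e : -(1 - x * y * z) * (x * y * (1 + -z) + -(1 - x * y * z)) *
            (-(x * y * z) * (1 - x * y * z)) / ((1 - x * y * z) * (1 - x * y * z)) =
            -(x * y * z) * (1 - x * y) := by
          field_simp
          ring
        rwa [e] at h5
    rcases k4 with h1 | h1
    · exact h.not_both k3 h1
    · rcases k5 with h2 | h2
      · exact h.not_both k3 h2
      · exact h.not_both h1 (by rwa [neg_mul] at h2)
  rcases h.idx x y hx.1 hy.1 hx.2.1 hy.2.1 with h1 | h1
  · exact key x hx h1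
  · have h2 := key (-x) (h.S1 hx) (by rwa [neg_mul])
    have h3 := h.S1 h2
    have e : -(-x * y * z) = x * y * z := by ring
    rwa [e] at h3

end

open Pool.Agent.Y920.ETC (RigidPair Sm PCD)

theorem sm_iff {M H : Subgroup Fˣ} (hH : ∀ x : Fˣ, x ∈ H ↔ x ∈ M ∨ -x ∈ M) {x : Fˣ} :
    Sm M H x ↔ Sma M (x : F) := by
  unfold Sm Sma
  rw [hH x, ← inH_unit]
  constructor
  · rintro ⟨h1, h2⟩
    exact ⟨x.ne_zero, h1, h2⟩
  · rintro ⟨-, h1, h2⟩
    exact ⟨h1, h2⟩

theorem index_two {M H : Subgroup Fˣ} (hidx : M.index = 4) (hneg : (-1 : Fˣ) ∉ M)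
    (hH : ∀ x : Fˣ, x ∈ H ↔ x ∈ M ∨ -x ∈ M) : H.index = 2 := by
  have hle : M ≤ H := fun x hx => (hH x).2 (Or.inl hx)
  have h1 : M.relIndex H = 2 := by
    change (M.subgroupOf H).index = 2
    rw [Subgroup.index_eq_two_iff]
    refine ⟨⟨-1, (hH _).2 (Or.inr (by rw [neg_neg]; exact M.one_mem))⟩, fun b => ?_⟩
    have hb := (hH b.1).1 b.2
    rw [Subgroup.mem_subgroupOf, Subgroup.mem_subgroupOf]
    have e : ((b * ⟨-1, (hH _).2 (Or.inr (by rw [neg_neg]; exact M.one_mem))⟩ : H) : Fˣ) =
        -b.1 := by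
      simp
    rw [e]
    rcases hb with h | h
    · refine Or.inr ⟨h, fun h2 => hneg ?_⟩
      have := M.mul_mem h2 (M.inv_mem h)
      rwa [neg_mul, mul_inv_cancel] at this
    · refine Or.inl ⟨h, fun h2 => hneg ?_⟩
      have := M.mul_mem h (M.inv_mem h2)
      rwa [neg_mul, mul_inv_cancel] at this
  have h2 := Subgroup.relIndex_mul_index hle
  rw [h1, hidx] at h2
  omega

/-- The statement of the package PCDN. -/
theorem pcdn_core (M H : Subgroup Fˣ) (hsq : ∀ x : Fˣ, x * x ∈ M) (hidx : M.index = 4)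
    (hneg : (-1 : Fˣ) ∉ M) (hH : ∀ x : Fˣ, x ∈ H ↔ x ∈ M ∨ -x ∈ M) (hR : RigidPair M H)
    (hz : ∀ x z : Fˣ, x ∈ M → (z : F) = 1 + x → z ∈ H)
    (hxy : ∃ x₀ ∈ M, ∃ y₀ ∈ M, (1 : F) + x₀ + y₀ = 0) : PCD M H := by
  have h2 := index_two hidx hneg hH
  have hctx : Ctx M := by
    refine ⟨?_, ?_, ?_, ?_, ?_, ?_⟩
    · intro a ha
      exact ⟨Units.mk0 a ha * Units.mk0 a ha, hsq _, by simp⟩
    · rintro ⟨t, ht, h⟩
      apply hneg
      have : t = -1 := by
        apply Units.ext
        rw [h]
        simp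
      rwa [← this]
    · intro a b ha hb h1 h3
      have e : ((Units.mk0 a ha * Units.mk0 b hb : Fˣ) : F) = a * b := by simp
      rw [← e, inH_unit, ← hH, Subgroup.mul_mem_iff_of_index_two h2]
      have h1' : Units.mk0 a ha ∉ H := by
        rw [hH, ← inH_unit]
        exact h1
      have h3' : Units.mk0 b hb ∉ H := by
        rw [hH, ← inH_unit]
        exact h3
      exact ⟨fun h => absurd h h1', fun h => absurd h h3'⟩
    · intro a ha h1
      have h1' : Units.mk0 a ha ∉ H := by
        rw [hH, ← inH_unit]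
        exact h1
      rcases hR.rigid _ h1' with h3 | ⟨t, ht, h3⟩
      · exact Or.inl h3
      · right
        refine ⟨Units.mk0 a ha * Units.mk0 a ha * t, M.mul_mem (hsq _) ht, ?_⟩
        rw [Units.val_mul] at h3
        rw [Units.val_mul, Units.val_mul, mul_assoc, h3]
        simp
    · rintro a ⟨t, ht, rfl⟩ h1
      have h3 := hz t (Units.mk0 _ h1) ht (by simp)
      rw [hH, ← inH_unit] at h3
      exact h3
    · obtain ⟨x, hx, y, hy, h⟩ := hxy
      exact ⟨x, y, ⟨x, hx, rfl⟩, ⟨y, hy, rfl⟩, h⟩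
  refine ⟨?_, ?_, ?_⟩
  · intro x y z hx hy _ hz'
    rw [sm_iff hH] at hx hy hz' ⊢
    rw [Units.val_mul, Units.val_mul]
    exact hctx.P hx hy hz'
  · intro a x c ha hx hc
    rw [sm_iff hH] at ha hx ⊢
    rw [Units.val_mul, hc]
    exact hctx.C ha hx
  · intro x a b hx ha hb
    rw [sm_iff hH] at hx ha hb
    exact hctx.D hx ha hb

end Pool.Agent.P8H61.FQ
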